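import Pool.Agent.helper46.ESM.Spec

set_option autoImplicit false

namespace Pool.Agent.helper46.ESM

open Subgroup Pool.Agent.helper80.EN

universe u

theorem MXN_fin {D : Type u} [Group D] (c : Set (Subgroup D)) (hc : IsChain (· ≤ ·) c) (y : Subgroup D)
    (hy : y ∈ c) (S : Finset D) : (∀ x ∈ S, ∃ N ∈ c, x ∈ N) → ∃ N ∈ c, ∀ x ∈ S, x ∈ N := by
  classical
  induction S using Finset.induction_on with
  | empty => intro _; exact ⟨y, hy, by simp⟩
  | insert a S _ ih =>
    intro h
    obtain ⟨N, hN, h1⟩ := ih (fun x hx => h x (Finset.mem_insert_of_mem hx))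
    obtain ⟨M, hM, h2⟩ := h a (Finset.mem_insert_self _ _)
    rcases hc.total hN hM with hNM | hMN
    · refine ⟨M, hM, fun x hx => ?_⟩
      rcases Finset.mem_insert.1 hx with rfl | hx
      · exact h2
      · exact hNM (h1 x hx)
    · refine ⟨N, hN, fun x hx => ?_⟩
      rcases Finset.mem_insert.1 hx with rfl | hx
      · exact hMN h2
      · exact h1 x hx

theorem MXN : MXN_stmt.{u} := by
  intro D _ hfg hnt
  obtain ⟨S, hS⟩ := hfg.out
  obtain ⟨K, -, hK⟩ := zorn_le_nonempty₀ {N : Subgroup D | N.Normal ∧ N ≠ ⊤} (by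
    intro c hcs hc y hy
    have hmem : ∀ x, x ∈ sSup c ↔ ∃ N ∈ c, x ∈ N := fun x =>
      Subgroup.mem_sSup_of_directedOn ⟨y, hy⟩ hc.directedOn
    refine ⟨sSup c, ⟨⟨?_⟩, ?_⟩, fun z hz => le_sSup hz⟩
    · intro n hn g
      obtain ⟨N, hN, hnN⟩ := (hmem n).1 hn
      exact (hmem _).2 ⟨N, hN, (hcs hN).1.conj_mem n hnN g⟩
    · intro htop
      obtain ⟨N, hN, h⟩ := MXN_fin c hc y hy S (fun x _ => (hmem x).1 (by rw [htop]; exact mem_top x))
      apply (hcs hN).2
      rw [eq_top_iff, ← hS, closure_le]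
      exact fun x hx => h x hx) ⊥ ⟨inferInstance, bot_ne_top⟩
  have : K.Normal := hK.prop.1
  refine ⟨K, hK.prop.1, ?_⟩
  have : Nontrivial (D ⧸ K) := by
    rw [QuotientGroup.nontrivial_iff]
    exact hK.prop.2
  refine { exists_pair_ne := exists_pair_ne _, eq_bot_or_eq_top_of_normal := ?_ }
  intro H hH
  by_cases htop : H.comap (QuotientGroup.mk' K) = ⊤
  · right
    rw [eq_top_iff]
    intro x _
    obtain ⟨d, rfl⟩ := QuotientGroup.mk'_surjective K x
    have : d ∈ H.comap (QuotientGroup.mk' K) := by rw [htop]; exact mem_top d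
    exact this
  · left
    have hle : K ≤ H.comap (QuotientGroup.mk' K) := by
      intro k hk
      rw [mem_comap]
      have : QuotientGroup.mk' K k = 1 := (QuotientGroup.eq_one_iff k).2 hk
      rw [this]
      exact H.one_mem
    have heq : H.comap (QuotientGroup.mk' K) ≤ K := hK.2 ⟨hH.comap _, htop⟩ hle
    rw [eq_bot_iff]
    intro x hx
    obtain ⟨d, rfl⟩ := QuotientGroup.mk'_surjective K x
    have : d ∈ K := heq hx
    rw [mem_bot]
    exact (QuotientGroup.eq_one_iff d).2 this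

end Pool.Agent.helper46.ESM
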